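import Pool.Agent.Q42.CU.Glob

/-!
# The weak topological monodromy conjecture: reduction to sums of cubes over triple systems

A *triple system* consists of subsets `E_1, …, E_r` of `{1, …, k}` with three elements or with one
element and of constants `c_1, …, c_r`, where `c_j = 0` if `E_j` has three elements. Its polynomial is

`Φ = (z_1 ^ 3 + ⋯ + z_k ^ 3) / 24 + ∑_j y_j (∑_{i ∈ E_j} z_i - c_j)`.

Every polynomial `f ∈ ℂ[x_1, …, x_n]` is stably equivalent to such a `Φ`: for all large `κ` there is an
isomorphism of polynomial rings which takes `f + u_1 v_1 + ⋯ + u_κ v_κ` to the polynomial of a triple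
system. If the coefficients of `f` are in the `ℚ`-vector space spanned by a set `S ∋ 1`, the `c_j ≠ 0` can
be taken to be different elements of `S`; so for `f ∈ ℚ[x]` there is one constant `1` and all others
are `0`, that is, `Φ` is given by a 3-uniform hypergraph with some marked vertices. We deduce that the
conjecture Q1 (weak form) for all nonconstant polynomials over `ℂ` (over `ℚ`) is
equivalent to the conjecture for the polynomials `Φ` of triple systems (with one constant `1`), and
that only the `Φ` with minimal exponent larger than any given `N` have to be considered. This is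
the analogue of Drużkowski's theorem on the Jacobian conjecture.

Method. Horner's scheme of `f` along a forest (our hand-in TrilinearReductionWeak) makes `f` trilinear. The
products of three variables or constants are sums of cubes of linear forms `± a ± b ± c`; every linear
form which occurs is computed step by step, each step being an equation `z + z' + z'' = 0`, and the
cubes of the auxiliary forms are cancelled by the cubes of their negatives. The equations have an
invertible (unitriangular) matrix, and so an automorphism takes `f + ∑ u_m v_m` to `Φ`; the variables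
`y_j` are the Lagrange multipliers of the equations. The constant term of `f` is removed by
`(u + 1) (v - f(0)) = u v - f(0) u + v - f(0)`, and denominators by `x_i ↦ D x_i`. The addition of a plane `u v`
shifts the roots of `b_f(s) / (s + 1)` and the poles of the topological zeta function by `-1`, apart from
integers (see TrilinearReductionWeak).
-/

set_option autoImplicit false

namespace Pool.Agent.Results.MP_a2a574_ag.TripleSystems

open MvPolynomial Pool.Agent.Q223.MM Pool.Agent.Q223.TW Pool.Agent.TH192.MU Pool.Agent.Q42.CU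
open Pool.Agent.W428.MOT (MK Lu)
open Pool.Agent.H628R4.TP (IsBFunction)

/-- **Q1 is equivalent to its case of the polynomials of triple systems with minimal exponent larger
than `N`.**

`Phi 24⁻¹ E c` is the polynomial `(∑ z_i ^ 3) / 24 + ∑_j y_j (∑_{i ∈ E j} z_i - c j)`. `IsTriple S E c`: every
`E j` has three elements and `c j = 0`, or one element and `c j = 0` or `c j ∈ S`; and the `c j` which are
not zero are different. `StEq f κ F`: `F` has `n + 2 κ` variables and an isomorphism of polynomial rings
takes `f + ∑_{m < κ} u_m v_m` to `F`.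

`WeakG E' ε f`: for every pole `s₀` of the global topological zeta function of `f`
(`IsTopZeta E' ε (zetaM f Set.univ {c | c ≠ 0}) Z`) and every `b` with `b(s) f ^ s = P(s) f ^ (s + 1)`
(`IsBFunction f b`), `P(s)` in the Weyl algebra, polynomial in `s` (for instance `b = b_f`), there is
`j ∈ ℤ` with `b(s₀ + j) = 0`. By the theorem of Malgrange and Kashiwara this is Q1 for `f`: the monodromy
eigenvalues of `f` are the numbers `exp(2 π i s)` with `b_f(s) = 0`.
`MinExp N F`: there is `c ≠ 0` such that `(s + 1) c(s)` satisfies such a functional equation for `F`, and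
the roots of `c` have real part `< -N`; so the minimal exponent of `F` is larger than `N`.

First part: every nonconstant `f` with coefficients in the `ℚ`-span of `S ∋ 1` is stably equivalent to
the polynomials of triple systems, for all large numbers `κ` of planes; they have minimal exponent
larger than `N` (as `f` has a Bernstein-Sato polynomial), and for all realisations `(E', ε)` the
conjecture for one of them implies the conjecture for `f`.
Second part: the equivalence. For `S = Set.univ` it is about all nonconstant polynomials, for `S = {1}`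
about all nonconstant polynomials with rational coefficients. -/
theorem result (S : Set ℂ) (hS : (1 : ℂ) ∈ S) (N : ℕ) :
    (∀ (n : ℕ) (f : MvPolynomial (Fin n) ℂ), f.totalDegree ≠ 0 →
      (∀ d, coeff d f ∈ Submodule.span ℚ S) →
      ∃ κ₁ : ℕ, ∀ κ, κ₁ ≤ κ → ∃ (k r : ℕ) (E : Fin r → Finset (Fin k)) (c : Fin r → ℂ), 0 < k ∧
        IsTriple S E c ∧ StEq f κ (Phi 24⁻¹ E c) ∧
        ((∃ b : Polynomial ℂ, b ≠ 0 ∧ IsBFunction f b) → MinExp N (Phi 24⁻¹ E c)) ∧
        ∀ (R : Type) [CommRing R] [IsDomain R] (E' : MK ℂ →+* R) (ε : R →+* ℂ),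
          ε (E' ((Lu ℂ : (MK ℂ)ˣ) : MK ℂ)) = 1 → E' ((Lu ℂ : (MK ℂ)ˣ) : MK ℂ) ≠ 1 →
          WeakG E' ε (Phi 24⁻¹ E c) → WeakG E' ε f) ∧
    ∀ (R : Type) [CommRing R] [IsDomain R] (E' : MK ℂ →+* R) (ε : R →+* ℂ),
      ε (E' ((Lu ℂ : (MK ℂ)ˣ) : MK ℂ)) = 1 → E' ((Lu ℂ : (MK ℂ)ˣ) : MK ℂ) ≠ 1 →
      ((∀ (n : ℕ) (f : MvPolynomial (Fin n) ℂ), f.totalDegree ≠ 0 →
          (∀ d, coeff d f ∈ Submodule.span ℚ S) → WeakG E' ε f) ↔
        ∀ (k r : ℕ) (E : Fin r → Finset (Fin k)) (c : Fin r → ℂ), 0 < k → IsTriple S E c →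
          MinExp N (Phi 24⁻¹ E c) → WeakG E' ε (Phi 24⁻¹ E c)) := by
  have key : ∀ (n : ℕ) (f : MvPolynomial (Fin n) ℂ), f.totalDegree ≠ 0 →
      (∀ d, coeff d f ∈ Submodule.span ℚ S) →
      ∃ κ₁ : ℕ, ∀ κ, κ₁ ≤ κ → ∃ (k r : ℕ) (E : Fin r → Finset (Fin k)) (c : Fin r → ℂ), 0 < k ∧
        IsTriple S E c ∧ StEq f κ (Phi 24⁻¹ E c) ∧
        ((∃ b : Polynomial ℂ, b ≠ 0 ∧ IsBFunction f b) → MinExp N (Phi 24⁻¹ E c)) ∧
        ∀ (R : Type) [CommRing R] [IsDomain R] (E' : MK ℂ →+* R) (ε : R →+* ℂ),
          ε (E' ((Lu ℂ : (MK ℂ)ˣ) : MK ℂ)) = 1 → E' ((Lu ℂ : (MK ℂ)ˣ) : MK ℂ) ≠ 1 →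
          WeakG E' ε (Phi 24⁻¹ E c) → WeakG E' ε f := by
    intro n f hf hfS
    obtain ⟨κ₁, h⟩ := exists_phis S hS N n f hf hfS
    refine ⟨κ₁, fun κ hκ => ?_⟩
    obtain ⟨k, r, E, c, hk, hc, he, hm⟩ := h κ hκ
    exact ⟨k, r, E, c, hk, hc, he, hm, fun R _ _ E' ε h1 h2 => (he.glob hf R E' ε h1 h2).1⟩
  refine ⟨key, ?_⟩
  intro R _ _ E' ε h1 h2
  constructor
  · intro h k r E c hk hc _
    exact h _ _ (Phi_deg inv24 hk E c) (Phi_span inv24 hS hc)
  · intro h n f hf hfS
    by_cases hb : ∃ b : Polynomial ℂ, b ≠ 0 ∧ IsBFunction f b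
    · obtain ⟨κ₁, h3⟩ := key n f hf hfS
      obtain ⟨k, r, E, c, hk, hc, -, hm, h4⟩ := h3 κ₁ le_rfl
      exact h4 R E' ε h1 h2 (h k r E c hk hc (hm hb))
    · intro Z _ s₀ _ b hb'
      by_contra hne
      exact hb ⟨b, fun h0 => hne ⟨0, by rw [h0, Polynomial.eval_zero]⟩, hb'⟩

end Pool.Agent.Results.MP_a2a574_ag.TripleSystems
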